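import Pool.Agent.Helper39.FX.Defs

/-!
# Expansions of functions on a curve (package EXP of the project FX)
(not results)
-/

set_option autoImplicit false

open Polynomial

namespace Pool.Agent.Helper92.FX

open Pool.Agent.Y791.BF Pool.Agent.Helper39.FX

section

variable {R : Type} [CommRing R]

theorem ev_eq (t s : R) (A : R[X][X]) : ev2 (RingHom.id R) t s A = (A.eval (C s)).eval t := by
  unfold ev2
  rw [coe_eval₂RingHom, eval₂_eval₂RingHom_apply]
  simp [evalEval]

theorem eval_C_eq (s : R) (A : R[X][X]) :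
    A.eval (C s) = (Bivariate.swap A).map (evalRingHom s) := by
  induction A using Polynomial.induction_on' with
  | add p q hp hq => simp [hp, hq]
  | monomial n a =>
    have h : (evalRingHom s).comp (C : R →+* R[X]) = RingHom.id R := by ext; simp
    rw [Bivariate.swap_monomial, eval_monomial]
    simp [Polynomial.map_map, h]

theorem ev_dT (t s : R) (A : R[X][X]) :
    ev2 (RingHom.id R) t s (dT A) = (derivative (A.eval (C s))).eval t := by
  rw [eval_C_eq, derivative_map, map_evalRingHom_eval, ev_eq]
  unfold dT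
  change evalEval t s (Bivariate.swap _) = _
  rw [← coe_aevalAeval_eq_evalEval, Bivariate.aevalAeval_swap, coe_aevalAeval_eq_evalEval]

theorem taylor2 (t d s e : R) (A : R[X][X]) : ∃ a b c : R,
    ev2 (RingHom.id R) (t + d) (s + e) A = ev2 (RingHom.id R) t s A +
      ev2 (RingHom.id R) t s (dT A) * d + ev2 (RingHom.id R) t s (derivative A) * e +
      (a * d ^ 2 + b * (d * e) + c * e ^ 2) := by
  obtain ⟨k, hk⟩ := Polynomial.binomExpansion A (C s) (C e)
  obtain ⟨k1, hk1⟩ := Polynomial.binomExpansion (A.eval (C s)) t d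
  obtain ⟨m, hm⟩ := Polynomial.binomExpansion ((derivative A).eval (C s)) t d
  refine ⟨k1, (derivative ((derivative A).eval (C s))).eval t + m * d, k.eval (t + d), ?_⟩
  rw [ev_dT, ev_eq, ev_eq, ev_eq, C_add, hk]
  simp only [eval_add, eval_mul, eval_pow, eval_C]
  rw [hk1, hm]
  ring

end

theorem exp_main : S_EXP := by
  intro L _ _ f A t d s e h0 h1 h2 h3
  have hb : ∀ x : ball1 L, ‖(x : L)‖ ≤ 1 := fun x => x.2
  obtain ⟨a, b, c, habc⟩ := taylor2 t d s e f
  obtain ⟨a', b', c', habc'⟩ := taylor2 t d s e A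
  rw [h0, h1, zero_add] at habc
  set fT := ev2 (RingHom.id (ball1 L)) t s (dT f) with hfT
  set fS := ev2 (RingHom.id (ball1 L)) t s (derivative f) with hfS
  set AT := ev2 (RingHom.id (ball1 L)) t s (dT A) with hAT
  set AS := ev2 (RingHom.id (ball1 L)) t s (derivative A) with hAS
  rcases eq_or_lt_of_le (hb d) with hd | hd
  · rw [hd, one_pow]
    exact hb _
  -- `‖e‖ ≤ ‖d‖`
  have hed : ‖(e : L)‖ ≤ ‖(d : L)‖ := by
    have e1 : e * (fS + (c * e + b * d)) = -(d * (fT + a * d)) := by
      linear_combination -habc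
    have e2 : ‖((fS + (c * e + b * d) : ball1 L) : L)‖ = 1 := by
      have h5 : ‖((c * e + b * d : ball1 L) : L)‖ < 1 := by
        push_cast
        refine lt_of_le_of_lt (IsUltrametricDist.norm_add_le_max _ _) (max_lt ?_ ?_)
        · rw [norm_mul]
          exact lt_of_le_of_lt (mul_le_of_le_one_left (norm_nonneg _) (hb c)) h3
        · rw [norm_mul]
          exact lt_of_le_of_lt (mul_le_of_le_one_left (norm_nonneg _) (hb b)) hd
      have h6 : ((fS + (c * e + b * d) : ball1 L) : L) = (fS : L) + ((c * e + b * d : ball1 L) : L) :=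
        by push_cast; ring
      rw [h6, IsUltrametricDist.norm_add_eq_max_of_norm_ne_norm (by rw [h2]; exact h5.ne'), h2]
      exact max_eq_left h5.le
    have e3 := congrArg (fun x : ball1 L => ‖(x : L)‖) e1
    simp only [Subring.coe_mul, norm_mul, NegMemClass.coe_neg, norm_neg] at e3
    rw [e2, mul_one] at e3
    rw [e3]
    exact mul_le_of_le_one_right (norm_nonneg _) (hb _)
  -- the remainders
  have hR : ∀ x y z : ball1 L, ‖((x * d ^ 2 + y * (d * e) + z * e ^ 2 : ball1 L) : L)‖ ≤
      ‖(d : L)‖ ^ 2 := by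
    intro x y z
    push_cast
    refine (IsUltrametricDist.norm_add_le_max _ _).trans (max_le
      ((IsUltrametricDist.norm_add_le_max _ _).trans (max_le ?_ ?_)) ?_)
    · rw [norm_mul, norm_pow]
      exact mul_le_of_le_one_left (by positivity) (hb x)
    · rw [norm_mul, norm_mul]
      refine (mul_le_of_le_one_left (by positivity) (hb y)).trans ?_
      rw [pow_two]
      exact mul_le_mul_of_nonneg_left hed (norm_nonneg _)
    · rw [norm_mul, norm_pow]
      refine (mul_le_of_le_one_left (by positivity) (hb z)).trans ?_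
      exact pow_le_pow_left₀ (norm_nonneg _) hed 2
  have hkey : (ev2 (RingHom.id (ball1 L)) (t + d) (s + e) A - ev2 (RingHom.id (ball1 L)) t s A) * fS -
      ev2 (RingHom.id (ball1 L)) t s (del f A) * d =
      fS * (a' * d ^ 2 + b' * (d * e) + c' * e ^ 2) -
        AS * (a * d ^ 2 + b * (d * e) + c * e ^ 2) := by
    have hdel : ev2 (RingHom.id (ball1 L)) t s (del f A) = AT * fS - AS * fT := by
      unfold del
      rw [map_sub, map_mul, map_mul]
    rw [hdel, habc']
    linear_combination (-AS) * habc
  rw [hkey, AddSubgroupClass.coe_sub, sub_eq_add_neg]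
  refine (IsUltrametricDist.norm_add_le_max _ _).trans (max_le ?_ ?_)
  · rw [Subring.coe_mul, norm_mul]
    exact (mul_le_of_le_one_left (norm_nonneg _) (hb _)).trans (hR _ _ _)
  · rw [norm_neg, Subring.coe_mul, norm_mul]
    exact (mul_le_of_le_one_left (norm_nonneg _) (hb _)).trans (hR _ _ _)

end Pool.Agent.Helper92.FX
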