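import Pool.Agent.Helper92.FX.FinA
import Pool.Agent.Helper39.FX.Defs

/-!
# Linear algebra for the values of functions (package FIN of the project FX)
(not results)
-/

set_option autoImplicit false

open Polynomial Finset

namespace Pool.Agent.Helper92.FX

/-- the nonvanishing indices -/
noncomputable def JJ {L : Type} [Field L] (m : ℕ) (χ : L[X]) : Finset ℕ := by
  classical exact (Finset.range m).filter fun c => χ.eval (c : L) ≠ 0

theorem mem_JJ {L : Type} [Field L] {m : ℕ} {χ : L[X]} {c : ℕ} :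
    c ∈ JJ m χ ↔ c < m ∧ χ.eval (c : L) ≠ 0 := by
  classical
  unfold JJ
  rw [Finset.mem_filter, Finset.mem_range]

theorem card_compl {L : Type} [Field L] [CharZero L] {n m : ℕ} {χ : L[X]} (h0 : χ ≠ 0)
    (hd : χ.natDegree ≤ n) : ((Finset.range m) \ JJ m χ).card ≤ n := by
  classical
  have h1 : ((Finset.range m) \ JJ m χ).image (fun c : ℕ => (c : L)) ⊆ χ.roots.toFinset := by
    intro x hx
    obtain ⟨c, hc, rfl⟩ := Finset.mem_image.1 hx
    rw [Finset.mem_sdiff, mem_JJ, Finset.mem_range] at hc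
    rw [Multiset.mem_toFinset, mem_roots h0, IsRoot.def]
    by_contra h
    exact hc.2 ⟨hc.1, h⟩
  have h2 := Finset.card_le_card h1
  rw [Finset.card_image_of_injective _ Nat.cast_injective] at h2
  exact h2.trans ((Multiset.toFinset_card_le _).trans ((card_roots' χ).trans hd))

open Classical in
/-- a nontrivial relation, if there is one -/
noncomputable def rl {K : Type} [Field K] (g : ℕ → K[X]) (S : Finset ℕ) : ℕ → K :=
  if h : ∃ β : ℕ → K, ∑ c ∈ S, C (β c) * g c = 0 ∧ ∃ c ∈ S, β c ≠ 0 then h.choose else 0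

open Classical in
/-- the factor of a set -/
noncomputable def fac {K : Type} [Field K] (g : ℕ → K[X]) (S : Finset ℕ) : K[X][X] :=
  if ∃ β : ℕ → K, ∑ c ∈ S, C (β c) * g c = 0 ∧ ∃ c ∈ S, β c ≠ 0 then ip g (rl g S) S else 1

theorem main : Pool.Agent.Helper39.FX.S_FIN := by
  classical
  intro K _ _ n hn m g hm hind
  refine ⟨∏ S ∈ powersetCard (n + 2) (range m), fac g S, ?_, ?_⟩
  · rw [Finset.prod_ne_zero_iff]
    intro S hS
    rw [Finset.mem_powersetCard] at hS
    unfold fac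
    split_ifs with h
    · have hr : rl g S = h.choose := by unfold rl; rw [dif_pos h]
      obtain ⟨h1, c1, hc1, h2⟩ := h.choose_spec
      have hSm : ∀ c ∈ S, c < m := fun c hc => Finset.mem_range.1 (hS.1 hc)
      have h3 := rel_ne hind hSm hS.2 h1 hc1 h2
      rw [← hr] at h1 h3
      intro h0
      have := ip_coeff hind hSm hS.2 h1 h3
      rw [h0, coeff_zero] at this
      exact this rfl
    · exact one_ne_zero
  intro L _ ι T hT htr χ hχ hrel t0 ht0
  have : CharZero L := charZero_of_injective_ringHom ι.injective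
  -- the g_c do not vanish
  have hg0 : ∀ c < m, g c ≠ 0 := by
    intro c hc h0
    obtain ⟨S, hS1, hS2⟩ := Finset.exists_subsuperset_card_eq
      (s := {c}) (t := range m) (n := n + 1) (by simpa using hc) (by simp) (by
        rw [Finset.card_range]; omega)
    have hcS : c ∈ S := hS1 (Finset.mem_singleton_self c)
    have := hind S (fun x hx => Finset.mem_range.1 (hS2.1 hx)) hS2.2 (fun x => if x = c then 1 else 0)
      (by
        rw [Finset.sum_eq_single_of_mem c hcS]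
        · simp [h0]
        · intro b _ hbc; simp [hbc]) c hcS
    simp at this
  have hgt : ∀ t ∈ T, ∀ c < m, eval₂ ι t (g c) ≠ 0 := fun t ht c hc => htr t ht _ (hg0 c hc)
  -- an infinite subset with constant J
  obtain ⟨J0, hJ0⟩ : ∃ J0 : Finset ℕ, {t ∈ T | JJ m (χ t) = J0}.Infinite := by
    by_contra hcon
    push Not at hcon
    apply hT
    have : T ⊆ ⋃ J ∈ (powerset (range m) : Finset (Finset ℕ)), {t ∈ T | JJ m (χ t) = J} := by
      intro t ht
      simp only [Set.mem_iUnion, Set.mem_ofPred_eq]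
      exact ⟨JJ m (χ t), Finset.mem_powerset.2 fun c hc => Finset.mem_range.2 (mem_JJ.1 hc).1,
        ht, rfl⟩
    exact (Set.Finite.biUnion (Finset.finite_toSet _) fun J _ => hcon J).subset
      this
  obtain ⟨t1, ht1T, ht1J⟩ := hJ0.nonempty
  have hcard : n + 2 ≤ (J0 ∩ JJ m (χ t0)).card := by
    have h1 : range m ⊆ (J0 ∩ JJ m (χ t0)) ∪ (((range m) \ JJ m (χ t1)) ∪ ((range m) \ JJ m (χ t0))) := by
      intro c hc
      simp only [Finset.mem_union, Finset.mem_inter, Finset.mem_sdiff, ← ht1J]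
      tauto
    have h2 := Finset.card_le_card h1
    have h3 := (Finset.card_union_le (J0 ∩ JJ m (χ t0))
      (((range m) \ JJ m (χ t1)) ∪ ((range m) \ JJ m (χ t0))))
    have h4 := Finset.card_union_le ((range m) \ JJ m (χ t1)) ((range m) \ JJ m (χ t0))
    have h5 := card_compl (m := m) (hχ t1 ht1T).1.ne_zero (hχ t1 ht1T).2
    have h6 := card_compl (m := m) (hχ t0 ht0).1.ne_zero (hχ t0 ht0).2
    rw [Finset.card_range] at h2
    omega
  obtain ⟨S, hSJ, hSc⟩ := Finset.exists_subset_card_eq hcard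
  have hS0 : ∀ c ∈ S, c ∈ J0 := fun c hc => (Finset.mem_inter.1 (hSJ hc)).1
  have hS1 : ∀ c ∈ S, (χ t1).eval (c : L) ≠ 0 := fun c hc => by
    have := hS0 c hc
    rw [← ht1J] at this
    exact (mem_JJ.1 this).2
  have hSt0 : ∀ c ∈ S, (χ t0).eval (c : L) ≠ 0 := fun c hc =>
    (mem_JJ.1 (Finset.mem_inter.1 (hSJ hc)).2).2
  have hSm : ∀ c ∈ S, c < m := fun c hc => (mem_JJ.1 (Finset.mem_inter.1 (hSJ hc)).2).1
  have hSne : S.Nonempty := by rw [← Finset.card_pos, hSc]; omega
  obtain ⟨c0, hc0⟩ := hSne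
  -- proportionality
  set κ : ℕ → L := fun c => (χ t1).eval (c : L) / eval₂ ι t1 (g c) with hκ
  have hκ0 : ∀ c ∈ S, κ c ≠ 0 := fun c hc => div_ne_zero (hS1 c hc) (hgt t1 ht1T c (hSm c hc))
  have hprop : ∀ t ∈ T, (∀ c ∈ S, (χ t).eval (c : L) ≠ 0) →
      ∃ μ : L, μ ≠ 0 ∧ ∀ c ∈ S, (χ t).eval (c : L) = μ * (κ c * eval₂ ι t (g c)) := by
    intro t ht hnz
    refine ⟨(χ t).eval (c0 : L) / (κ c0 * eval₂ ι t (g c0)),
      div_ne_zero (hnz c0 hc0) (mul_ne_zero (hκ0 c0 hc0) (hgt t ht c0 (hSm c0 hc0))), ?_⟩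
    intro c hc
    have h1 := hrel t ht t1 ht1T c (hSm c hc) c0 (hSm c0 hc0) (hnz c hc) (hnz c0 hc0)
      (hS1 c hc) (hS1 c0 hc0)
    have a1 := hgt t ht c0 (hSm c0 hc0)
    have a2 := hgt t1 ht1T c0 (hSm c0 hc0)
    have a3 := hgt t1 ht1T c (hSm c hc)
    have a4 := hS1 c0 hc0
    simp only [hκ]
    field_simp
    linear_combination h1
  -- the relation over L
  set Λ : ℕ → L := fun c => ∏ c' ∈ S.erase c, ((c : L) - (c' : L)) with hΛ
  have hΛ0 : ∀ c, Λ c ≠ 0 := by
    intro c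
    rw [hΛ]
    simp only
    rw [Finset.prod_ne_zero_iff]
    intro c' hc' h0
    exact (Finset.mem_erase.1 hc').1 (by exact_mod_cast (sub_eq_zero.1 h0).symm)
  have hinj : Set.InjOn (fun c : ℕ => (c : L)) (S : Set ℕ) := Nat.cast_injective.injOn
  have hdd : ∀ P : L[X], P.natDegree ≤ n → ∑ c ∈ S, P.eval (c : L) / Λ c = 0 := by
    intro P hP
    have h1 : P.degree < S.card := by
      rw [hSc]
      exact lt_of_le_of_lt (degree_le_of_natDegree_le hP) (by exact_mod_cast (by omega : n < n + 2))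
    have h2 := Lagrange.coeff_eq_sum hinj h1
    rw [← h2, hSc]
    exact coeff_eq_zero_of_natDegree_lt (by omega)
  set w : ℕ → L := fun c => κ c / Λ c with hw
  have hpz : ∀ t ∈ {t ∈ T | JJ m (χ t) = J0}, (∑ c ∈ S, C (w c) * (g c).map ι).eval t = 0 := by
    rintro t ⟨ht, htJ⟩
    have hnz : ∀ c ∈ S, (χ t).eval (c : L) ≠ 0 := fun c hc => by
      have := hS0 c hc
      rw [← htJ] at this
      exact (mem_JJ.1 this).2
    obtain ⟨μ, hμ0, hμ⟩ := hprop t ht hnz
    have h1 := hdd (χ t) (hχ t ht).2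
    have h2 : ∑ c ∈ S, (χ t).eval (c : L) / Λ c =
        μ * (∑ c ∈ S, C (w c) * (g c).map ι).eval t := by
      rw [eval_finsetSum, Finset.mul_sum]
      refine Finset.sum_congr rfl fun c hc => ?_
      rw [hμ c hc, eval_mul, eval_C, eval_map]
      simp only [hw]
      ring
    rw [h2] at h1
    exact (mul_eq_zero.1 h1).resolve_left hμ0
  have hrelL : ∑ c ∈ S, C (w c) * (g c).map ι = 0 := by
    apply Polynomial.eq_zero_of_infinite_isRoot
    exact hJ0.mono fun t ht => hpz t ht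
  have hw0 : ∀ c ∈ S, w c ≠ 0 := fun c hc => div_ne_zero (hκ0 c hc) (hΛ0 c)
  -- the relation over K
  have hex : ∃ β : ℕ → K, ∑ c ∈ S, C (β c) * g c = 0 ∧ ∃ c ∈ S, β c ≠ 0 := by
    obtain ⟨β, h1, h2⟩ := descent ι g S w hrelL c0 (hw0 c0 hc0)
    exact ⟨β, h1, c0, hc0, h2⟩
  have hfac : fac g S = ip g (rl g S) S := by unfold fac; rw [if_pos hex]
  have hr : rl g S = hex.choose := by unfold rl; rw [dif_pos hex]
  obtain ⟨h1, c1, hc1, h2⟩ := hex.choose_spec
  have h3 := rel_ne hind hSm hSc h1 hc1 h2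
  rw [← hr] at h1 h3
  obtain ⟨ρ, hρ⟩ := rel_unique hind ι hSm hSc h1 h3 hrelL
  have hρ0 : ρ ≠ 0 := by
    rintro rfl
    have := hρ c0 hc0
    rw [zero_mul] at this
    exact hw0 c0 hc0 this
  obtain ⟨μ, hμ0, hμ⟩ := hprop t0 ht0 hSt0
  set Q := (ip g (rl g S) S).map (eval₂RingHom ι t0) with hQ
  have hQd : Q.natDegree ≤ n + 1 := natDegree_map_le.trans (ip_natDegree g _ hSc)
  have heq : χ t0 = C (μ * ρ) * Q := by
    refine Polynomial.eq_of_degrees_lt_of_eval_index_eq S hinj ?_ ?_ ?_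
    · rw [hSc]
      exact lt_of_le_of_lt (degree_le_of_natDegree_le (hχ t0 ht0).2)
        (by exact_mod_cast (by omega : n < n + 2))
    · rw [hSc]
      refine lt_of_le_of_lt (degree_le_of_natDegree_le ((natDegree_C_mul_le _ _).trans hQd))
        (by exact_mod_cast (by omega : n + 1 < n + 2))
    · intro c hc
      rw [eval_mul, eval_C, hQ, ip_eval ι t0 g _ S hc, hμ c hc]
      have := hρ c hc
      have h5 : κ c = w c * Λ c := by
        simp only [hw]; field_simp [hΛ0 c]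
      rw [h5, this]
      simp only [hΛ]
      ring
  have hn1 : (χ t0).coeff n ≠ 0 := by
    rw [heq, coeff_C_mul, hQ, coeff_map]
    refine mul_ne_zero (mul_ne_zero hμ0 hρ0) ?_
    exact htr t0 ht0 _ (ip_coeff hind hSm hSc h1 h3)
  refine ⟨le_antisymm (hχ t0 ht0).2 (le_natDegree_of_ne_zero hn1), ?_⟩
  have hdvd1 : χ t0 ∣ Q := by
    refine ⟨C (μ * ρ)⁻¹, ?_⟩
    rw [heq, mul_right_comm, ← C_mul, mul_inv_cancel₀ (mul_ne_zero hμ0 hρ0), C_1, one_mul]
  refine hdvd1.trans ?_
  rw [hQ, ← hfac]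
  refine Polynomial.map_dvd _ (Finset.dvd_prod_of_mem _ ?_)
  rw [Finset.mem_powersetCard]
  exact ⟨fun c hc => Finset.mem_range.2 (hSm c hc), hSc⟩

end Pool.Agent.Helper92.FX
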