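import Pool.Agent.Helper39.FX.Defs
import Pool.Graph.R_seed8.W858.SG.Hensel

/-!
# The lemma of Hensel in the unit ball of a completion (package HEN of the project FX)
(not results)
-/

set_option autoImplicit false

open Polynomial IsDedekindDomain NumberField

namespace Pool.Agent.Helper92.FX

open Pool.Agent.Y791.BF Pool.Agent.Helper39.FX Pool.Agent.W858.SG Pool.Agent.W858.SF

theorem hen_main : S_HEN := by
  intro K _ i P s0 h0 h1
  have hone : vv i.v (1 : i.Lv) = 1 := map_one _
  have hn1 : ‖(1 : i.Lv)‖ = 1 := norm_one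
  have hle : ∀ x : i.Lv, ‖x‖ ≤ 1 → vv i.v x ≤ 1 := by
    intro x hx
    rw [← hn1] at hx
    exact ((norm_le_iff i.v _ _).1 hx).trans hone.le
  have hev : ∀ (Q : (ball1 i.Lv)[X]) (x : ball1 i.Lv),
      (Q.map (ball1 i.Lv).subtype).eval (x : i.Lv) = ((Q.eval x : ball1 i.Lv) : i.Lv) := by
    intro Q x
    have := Polynomial.eval_map_apply (ball1 i.Lv).subtype (p := Q) x
    simpa using this
  obtain ⟨y, hy1, hy2⟩ := newton i.v (P.map (ball1 i.Lv).subtype) (fun j => by
      rw [coeff_map]; exact hle _ (P.coeff j).2) (s0 : i.Lv) (hle _ s0.2)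
      ((P.eval s0 : ball1 i.Lv) : i.Lv)
      (by
        by_contra hcon
        have h2 : vv i.v (1 : i.Lv) ≤ vv i.v ((P.eval s0 : ball1 i.Lv) : i.Lv) := by
          rw [hone]; exact not_lt.1 hcon
        have h3 := (norm_le_iff i.v _ _).2 h2
        rw [hn1] at h3
        exact absurd h0 (not_lt.2 h3))
      (by rw [hev])
      (by
        rw [derivative_map, hev]
        refine le_antisymm (hle _ h1.le) ?_
        rw [← hone]
        apply (norm_le_iff i.v _ _).1
        rw [hn1, h1])
  have h4 : ‖y - s0‖ < 1 := lt_of_le_of_lt ((norm_le_iff i.v _ _).2 hy1) h0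
  have h5 : ‖y‖ ≤ 1 := by
    have h6 : y = (y - s0) + s0 := by ring
    rw [h6]
    exact (IsUltrametricDist.norm_add_le_max _ _).trans (max_le h4.le s0.2)
  refine ⟨⟨y, h5⟩, ?_, h4⟩
  apply Subtype.ext
  rw [← hev]
  exact hy2

end Pool.Agent.Helper92.FX
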