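import Mathlib

/-!
# Linear algebra for the values of functions (package FIN of the project FX): preparations
(not results)
-/

set_option autoImplicit false

open Polynomial Finset

namespace Pool.Agent.Helper92.FX

/-- a relation over a larger field gives a relation over the small field -/
theorem descent {K L : Type} [Field K] [Field L] (ι : K →+* L) (g : ℕ → K[X]) (S : Finset ℕ)
    (w : ℕ → L) (h : ∑ c ∈ S, C (w c) * (g c).map ι = 0) (c1 : ℕ) (hw : w c1 ≠ 0) :
    ∃ β : ℕ → K, ∑ c ∈ S, C (β c) * g c = 0 ∧ β c1 ≠ 0 := by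
  letI := ι.toAlgebra
  obtain ⟨φ, hφ⟩ := Module.Projective.exists_dual_ne_zero K hw
  refine ⟨fun c => φ (w c), ?_, hφ⟩
  ext j
  have h1 := congrArg (fun P => φ (P.coeff j)) h
  simp only [finsetSum_coeff, coeff_C_mul, coeff_map, map_sum, coeff_zero, map_zero] at h1 ⊢
  rw [← h1]
  refine Finset.sum_congr rfl fun c _ => ?_
  have : w c * ι ((g c).coeff j) = (g c).coeff j • w c := by
    rw [Algebra.smul_def, mul_comm]; rfl
  rw [this, map_smul, smul_eq_mul, mul_comm]

/-- the interpolation polynomial with the values `β_c g_c ∏ (c - c')` at `c` -/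
noncomputable def ip {K : Type} [Field K] (g : ℕ → K[X]) (β : ℕ → K) (S : Finset ℕ) : K[X][X] :=
  ∑ c ∈ S, C (C (β c) * g c) * ∏ c' ∈ S.erase c, (X - C (c' : K[X]))

section

variable {K : Type} [Field K] [CharZero K] {n : ℕ} {m : ℕ} {g : ℕ → K[X]}

/-- coefficients of a relation are nonzero -/
theorem rel_ne (hind : ∀ S : Finset ℕ, (∀ c ∈ S, c < m) → S.card = n + 1 →
    ∀ w : ℕ → K, ∑ c ∈ S, C (w c) * g c = 0 → ∀ c ∈ S, w c = 0)
    {S : Finset ℕ} (hS : ∀ c ∈ S, c < m) (hc : S.card = n + 2) {β : ℕ → K}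
    (h : ∑ c ∈ S, C (β c) * g c = 0) {c1 : ℕ} (hc1 : c1 ∈ S) (h1 : β c1 ≠ 0) :
    ∀ c ∈ S, β c ≠ 0 := by
  intro c hcS h0
  have hne : c1 ≠ c := by rintro rfl; exact h1 h0
  have h2 : ∑ x ∈ S.erase c, C (β x) * g x = 0 := by
    rw [← h, ← Finset.add_sum_erase S _ hcS, h0]; simp
  exact h1 (hind (S.erase c) (fun x hx => hS x (Finset.mem_of_mem_erase hx))
    (by rw [Finset.card_erase_of_mem hcS, hc]; rfl) β h2 c1 (Finset.mem_erase.2 ⟨hne, hc1⟩))

/-- relations over a larger field are multiples of the one over the small field -/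
theorem rel_unique (hind : ∀ S : Finset ℕ, (∀ c ∈ S, c < m) → S.card = n + 1 →
    ∀ w : ℕ → K, ∑ c ∈ S, C (w c) * g c = 0 → ∀ c ∈ S, w c = 0)
    {L : Type} [Field L] (ι : K →+* L)
    {S : Finset ℕ} (hS : ∀ c ∈ S, c < m) (hc : S.card = n + 2) {β : ℕ → K}
    (h : ∑ c ∈ S, C (β c) * g c = 0) (hβ : ∀ c ∈ S, β c ≠ 0) {w : ℕ → L}
    (hw : ∑ c ∈ S, C (w c) * (g c).map ι = 0) :
    ∃ ρ : L, ∀ c ∈ S, w c = ρ * ι (β c) := by
  have hne : S.Nonempty := by
    rw [← Finset.card_pos, hc]; omega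
  obtain ⟨c1, hc1⟩ := hne
  have hι : ι (β c1) ≠ 0 := (map_ne_zero ι).2 (hβ c1 hc1)
  refine ⟨w c1 / ι (β c1), ?_⟩
  set ρ := w c1 / ι (β c1) with hρ
  set w' : ℕ → L := fun c => w c - ρ * ι (β c) with hw'
  have h1 : w' c1 = 0 := by
    simp only [hw', hρ]; field_simp; simp
  have h2 : ∑ c ∈ S, C (w' c) * (g c).map ι = 0 := by
    have e1 : ∑ c ∈ S, C (w' c) * (g c).map ι =
        ∑ c ∈ S, C (w c) * (g c).map ι - C ρ * (∑ c ∈ S, C (β c) * g c).map ι := by
      rw [Polynomial.map_sum, Finset.mul_sum, ← Finset.sum_sub_distrib]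
      refine Finset.sum_congr rfl fun c _ => ?_
      simp only [hw', Polynomial.map_mul, Polynomial.map_C, map_sub, map_mul]
      ring
    rw [e1, hw, h]; simp
  have h3 : ∑ c ∈ S.erase c1, C (w' c) * (g c).map ι = 0 := by
    rw [← h2, ← Finset.add_sum_erase S _ hc1, h1]; simp
  intro c hcS
  by_contra hcon
  have h4 : w' c ≠ 0 := by
    simp only [hw']; exact sub_ne_zero.2 hcon
  have h5 : c ≠ c1 := by rintro rfl; exact h4 h1
  obtain ⟨γ, hγ, hγc⟩ := descent ι g (S.erase c1) w' h3 c h4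
  exact hγc (hind (S.erase c1) (fun x hx => hS x (Finset.mem_of_mem_erase hx))
    (by rw [Finset.card_erase_of_mem hc1, hc]; rfl) γ hγ c (Finset.mem_erase.2 ⟨h5, hcS⟩))

theorem ip_natDegree (g : ℕ → K[X]) (β : ℕ → K) {S : Finset ℕ} (hc : S.card = n + 2) :
    (ip g β S).natDegree ≤ n + 1 := by
  unfold ip
  refine natDegree_sum_le_of_forall_le _ _ fun c hcS => ?_
  refine (natDegree_C_mul_le _ _).trans ?_
  rw [natDegree_prod_of_monic _ _ (fun _ _ => monic_X_sub_C _)]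
  simp only [natDegree_X_sub_C, sum_const, smul_eq_mul, mul_one]
  rw [Finset.card_erase_of_mem hcS, hc]; omega

theorem ip_coeff (hind : ∀ S : Finset ℕ, (∀ c ∈ S, c < m) → S.card = n + 1 →
    ∀ w : ℕ → K, ∑ c ∈ S, C (w c) * g c = 0 → ∀ c ∈ S, w c = 0)
    {S : Finset ℕ} (hS : ∀ c ∈ S, c < m) (hc : S.card = n + 2) {β : ℕ → K}
    (h : ∑ c ∈ S, C (β c) * g c = 0) (hβ : ∀ c ∈ S, β c ≠ 0) :
    (ip g β S).coeff n ≠ 0 := by
  have e1 : (ip g β S).coeff n = ∑ c ∈ S, C ((c : K) * β c) * g c := by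
    unfold ip
    rw [finsetSum_coeff]
    have e2 : ∀ c ∈ S, (C (C (β c) * g c) * ∏ c' ∈ S.erase c, (X - C (c' : K[X]))).coeff n =
        C ((c : K) * β c) * g c - (∑ c' ∈ S, (c' : K[X])) * (C (β c) * g c) := by
      intro c hcS
      rw [coeff_C_mul]
      have hcard : (S.erase c).card = n + 1 := by rw [Finset.card_erase_of_mem hcS, hc]; rfl
      have e3 := prod_X_sub_C_coeff_card_pred (S.erase c) (fun c' : ℕ => (c' : K[X]))
        (by rw [hcard]; omega)
      rw [hcard, Nat.add_sub_cancel] at e3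
      rw [e3, ← Finset.add_sum_erase S _ hcS, C_mul, map_natCast]
      ring
    rw [Finset.sum_congr rfl e2, Finset.sum_sub_distrib, ← Finset.mul_sum, h]
    simp
  rw [e1]
  intro h0
  have hne : S.Nonempty := by
    rw [← Finset.card_pos, hc]; omega
  obtain ⟨c1, hc1⟩ := hne
  have h2 : ∑ c ∈ S, C (((c : K) - (c1 : K)) * β c) * g c = 0 := by
    have : ∑ c ∈ S, C (((c : K) - (c1 : K)) * β c) * g c =
        ∑ c ∈ S, C ((c : K) * β c) * g c - C (c1 : K) * ∑ c ∈ S, C (β c) * g c := by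
      rw [Finset.mul_sum, ← Finset.sum_sub_distrib]
      refine Finset.sum_congr rfl fun c _ => ?_
      simp only [C_mul, C_sub]; ring
    rw [this, h0, h]; simp
  have h3 : ∑ c ∈ S.erase c1, C (((c : K) - (c1 : K)) * β c) * g c = 0 := by
    rw [← h2, ← Finset.add_sum_erase S _ hc1]; simp
  have hcard : (S.erase c1).card = n + 1 := by rw [Finset.card_erase_of_mem hc1, hc]; rfl
  have h4 := hind (S.erase c1) (fun x hx => hS x (Finset.mem_of_mem_erase hx)) hcard
    (fun c => ((c : K) - (c1 : K)) * β c) h3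
  have hne2 : (S.erase c1).Nonempty := by rw [← Finset.card_pos, hcard]; omega
  obtain ⟨c2, hc2⟩ := hne2
  have h5 := h4 c2 hc2
  rcases mul_eq_zero.1 h5 with h6 | h6
  · exact (Finset.mem_erase.1 hc2).1 (by exact_mod_cast sub_eq_zero.1 h6)
  · exact hβ c2 (Finset.mem_of_mem_erase hc2) h6

end

/-- the value of the interpolation polynomial -/
theorem ip_eval {K L : Type} [Field K] [Field L] (ι : K →+* L) (t : L) (g : ℕ → K[X]) (β : ℕ → K)
    (S : Finset ℕ) {c : ℕ} (hc : c ∈ S) :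
    ((ip g β S).map (eval₂RingHom ι t)).eval (c : L) =
      ι (β c) * eval₂ ι t (g c) * ∏ c' ∈ S.erase c, ((c : L) - (c' : L)) := by
  unfold ip
  rw [Polynomial.map_sum, eval_finset_sum, Finset.sum_eq_single_of_mem c hc]
  · simp [eval_prod, Polynomial.map_prod, Polynomial.map_sub]
  · intro b hb hbc
    rw [Polynomial.map_mul, eval_mul, Polynomial.map_prod, eval_prod,
      Finset.prod_eq_zero (Finset.mem_erase.2 ⟨hbc.symm, hc⟩)]
    · simp
    · simp [Polynomial.map_sub]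

end Pool.Agent.Helper92.FX
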